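import Mathlib

open FirstOrder CategoryTheory

universe u v w

namespace Pool.Agent.P.MP_ae912c_co

/-- The class `K` has the finite `k`-sunflower property: for every `B ∈ K` there is `C ∈ K` such
that every `L`-structure `D` whose elements are `k`-sets (subsets of size `k` of some type `U`) and
which is isomorphic to `C` has a substructure `S` isomorphic to `B` whose distinct elements all
meet in one common set `c`. -/
def FiniteSunflower {L : FirstOrder.Language.{u, v}} (K : Set (Bundled.{w} L.Structure)) (k : ℕ) : Prop :=
  ∀ B ∈ K, ∃ C ∈ K, ∀ (U : Type w) (D : Set (Set U)) [L.Structure D],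
    (∀ x ∈ D, x.encard = k) → Nonempty (D ≃[L] C) →
      ∃ S : L.Substructure D, Nonempty (S ≃[L] B) ∧
        ∃ c : Set U, ∀ x ∈ S, ∀ y ∈ S, x ≠ y → (x : Set U) ∩ (y : Set U) = c

end Pool.Agent.P.MP_ae912c_co
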