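import Pool.Agent.P.MP_ae912c_co.Defs

open FirstOrder Function
open CategoryTheory (Bundled)

universe u v w

namespace Pool.Agent.P.MP_ae912c_co

/-- Greedy colouring of a symmetric relation of bounded degree on a finite type. -/
theorem exists_greedy {α : Type*} [Finite α] (R : α → α → Prop) (hR : ∀ x y, R x y → R y x)
    (N : ℕ) (hN : ∀ x, ∃ t : Finset α, t.card ≤ N ∧ ∀ y, R x y → y ∈ t) :
    ∃ col : α → Fin (N + 1), ∀ x y, x ≠ y → R x y → col x ≠ col y := by
  classical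
  have key : ∀ s : Finset α, ∃ col : α → Fin (N + 1),
      ∀ x ∈ s, ∀ y ∈ s, x ≠ y → R x y → col x ≠ col y := by
    intro s
    induction s using Finset.induction_on with
    | empty => exact ⟨fun _ => 0, by simp⟩
    | insert a s ha ih =>
      obtain ⟨col, hcol⟩ := ih
      obtain ⟨t, ht, hta⟩ := hN a
      have hlt : (t.image col).card < (Finset.univ : Finset (Fin (N + 1))).card := by
        have := Finset.card_image_le (s := t) (f := col)
        simp only [Finset.card_univ, Fintype.card_fin]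
        omega
      obtain ⟨c, -, hc⟩ := Finset.exists_mem_notMem_of_card_lt_card hlt
      have hc' : ∀ y, R a y → c ≠ col y := fun y hy h =>
        hc (Finset.mem_image.2 ⟨y, hta y hy, h.symm⟩)
      refine ⟨update col a c, fun x hx y hy hxy hxy' => ?_⟩
      by_cases h1 : x = a
      · subst h1
        rw [update_self, update_of_ne (Ne.symm hxy)]
        exact hc' y hxy'
      · by_cases h2 : y = a
        · subst h2
          rw [update_self, update_of_ne hxy]
          exact (hc' x (hR _ _ hxy')).symm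
        · rw [update_of_ne h1, update_of_ne h2]
          exact hcol x ((Finset.mem_insert.1 hx).resolve_left h1) y
            ((Finset.mem_insert.1 hy).resolve_left h2) hxy hxy'
  have := Fintype.ofFinite α
  obtain ⟨col, hcol⟩ := key Finset.univ
  exact ⟨col, fun x y => hcol x (Finset.mem_univ _) y (Finset.mem_univ _)⟩

variable {L : FirstOrder.Language.{u, v}}

/-- The sunflower property for one pair `B`, `C`, written with an injective labelling of `C`. -/
def Arrow (B C : Bundled.{w} L.Structure) (k : ℕ) : Prop :=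
  ∀ (U : Type w) (s : C → Set U), Injective s → (∀ x, (s x).encard = k) →
    ∃ e : B ↪[L] C, ∃ c : Set U, ∀ x y, x ≠ y → s (e x) ∩ s (e y) = c

theorem arrow_iff (B C : Bundled.{w} L.Structure) (k : ℕ) :
    Arrow B C k ↔ ∀ (U : Type w) (D : Set (Set U)) [L.Structure D],
    (∀ x ∈ D, x.encard = k) → Nonempty (D ≃[L] C) →
      ∃ S : L.Substructure D, Nonempty (S ≃[L] B) ∧
        ∃ c : Set U, ∀ x ∈ S, ∀ y ∈ S, x ≠ y → (x : Set U) ∩ (y : Set U) = c := by
  constructor
  · rintro h U D _ hD ⟨φ⟩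
    obtain ⟨e, c, hc⟩ := h U (fun x => (φ.symm x : Set U))
      (Subtype.val_injective.comp φ.symm.injective) (fun x => hD _ (φ.symm x).2)
    refine ⟨(φ.symm.toEmbedding.comp e).toHom.range,
      ⟨(φ.symm.toEmbedding.comp e).equivRange.symm⟩, c, ?_⟩
    rintro _ ⟨x, rfl⟩ _ ⟨y, rfl⟩ hxy
    exact hc x y fun h => hxy (by rw [h])
  · intro h U s hs hk
    let _ : L.Structure (Set.range s) := Equiv.inducedStructure (Equiv.ofInjective s hs)
    let φ : C ≃[L] Set.range s := Equiv.inducedStructureEquiv (Equiv.ofInjective s hs)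
    have hφ : ∀ x, (φ x : Set U) = s x := fun x => rfl
    obtain ⟨S, ⟨ψ⟩, c, hc⟩ := h U (Set.range s) (by rintro _ ⟨x, rfl⟩; exact hk x) ⟨φ.symm⟩
    refine ⟨φ.symm.toEmbedding.comp (S.subtype.comp ψ.symm.toEmbedding), c, fun x y hxy => ?_⟩
    have e : ∀ z, s ((φ.symm.toEmbedding.comp (S.subtype.comp ψ.symm.toEmbedding)) z)
        = ((ψ.symm z : Set.range s) : Set U) := fun z => by
      rw [← hφ]; simp
    rw [e, e]
    exact hc _ (ψ.symm x).2 _ (ψ.symm y).2 fun h => hxy (ψ.symm.injective (Subtype.ext h))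

theorem finiteSunflower_iff (K : Set (Bundled.{w} L.Structure)) (k : ℕ) :
    FiniteSunflower K k ↔ ∀ B ∈ K, ∃ C ∈ K, Arrow B C k := by
  simp only [FiniteSunflower, arrow_iff]

/-- Constant or injective. -/
def Canon {α β : Type*} (g : α → β) : Prop := (∀ x y, g x = g y) ∨ Injective g

theorem Canon.comp {α β γ : Type*} {g : α → β} (hg : Canon g) {e : γ → α} (he : Injective e) :
    Canon (g ∘ e) :=
  hg.imp (fun h _ _ => h _ _) fun h => h.comp he

theorem canon_of_arrow {B C : Bundled.{w} L.Structure} (h : Arrow B C 2) (X : Type w)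
    (χ : C → X) : ∃ e : B ↪[L] C, Canon (χ ∘ e) := by
  obtain ⟨e, c, hc⟩ := h (X ⊕ C) (fun x => {Sum.inl (χ x), Sum.inr x}) (fun x y hxy => by
    have : (Sum.inr x : X ⊕ C) ∈ ({Sum.inl (χ y), Sum.inr y} : Set (X ⊕ C)) := by
      have hxy' : ({Sum.inl (χ x), Sum.inr x} : Set (X ⊕ C)) = {Sum.inl (χ y), Sum.inr y} := hxy
      rw [← hxy']; simp
    simpa using this) (fun x => Set.encard_pair (by simp))
  refine ⟨e, ?_⟩
  by_cases hinj : Injective (χ ∘ e)
  · exact Or.inr hinj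
  · left
    rw [Injective] at hinj
    push Not at hinj
    obtain ⟨a, b, hab, hne⟩ := hinj
    intro x y
    by_cases hxy : x = y
    · rw [hxy]
    have h1 : (Sum.inl (χ (e a)) : X ⊕ C) ∈ c := by
      rw [← hc a b hne]
      exact ⟨by simp, by simpa using hab⟩
    rw [← hc x y hxy] at h1
    have h2 : χ (e a) = χ (e x) := by simpa using h1.1
    have h3 : χ (e a) = χ (e y) := by simpa using h1.2
    exact h2.symm.trans h3

variable {K : Set (Bundled.{w} L.Structure)}

theorem exists_canon (h : ∀ B ∈ K, ∃ C ∈ K, Arrow B C 2) (j : ℕ) :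
    ∀ B ∈ K, ∃ C ∈ K, ∀ (U : Type w) (f : Fin j → C → U),
      ∃ e : B ↪[L] C, ∀ i, Canon (f i ∘ e) := by
  induction j with
  | zero => exact fun B hB => ⟨B, hB, fun U f => ⟨.refl L B, fun i => i.elim0⟩⟩
  | succ j ih =>
    intro B hB
    obtain ⟨C₁, hC₁, h₁⟩ := ih B hB
    obtain ⟨C, hC, h₂⟩ := h C₁ hC₁
    refine ⟨C, hC, fun U f => ?_⟩
    obtain ⟨e₁, he₁⟩ := canon_of_arrow h₂ U (f (Fin.last j))
    obtain ⟨e₀, he₀⟩ := h₁ U fun i => f i.castSucc ∘ e₁
    refine ⟨e₁.comp e₀, fun i => ?_⟩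
    induction i using Fin.lastCases with
    | last => exact he₁.comp e₀.injective
    | cast i => exact he₀ i

theorem exists_larger (hfin : ∀ M ∈ K, Finite M) (h : ∀ B ∈ K, ∃ C ∈ K, Arrow B C 2) :
    ∀ B ∈ K, 3 ≤ Nat.card B → ∃ C ∈ K, Nonempty (B ↪[L] C) ∧ Nat.card B < Nat.card C := by
  classical
  intro B hB h3
  obtain ⟨C, hC, hBC⟩ := h B hB
  have := hfin B hB
  have := hfin C hC
  obtain ⟨e₀, -⟩ := canon_of_arrow hBC C id
  refine ⟨C, hC, ⟨e₀⟩, ?_⟩
  by_contra hlt
  have hle : Nat.card C ≤ Nat.card B := not_lt.1 hlt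
  have hge : Nat.card B ≤ Nat.card C := Nat.card_le_card_of_injective _ e₀.injective
  have := Fintype.ofFinite C
  have h3' : 2 < Fintype.card C := by rw [← Nat.card_eq_fintype_card]; omega
  obtain ⟨a, b, c, hab, hac, hbc⟩ := Fintype.two_lt_card_iff.1 h3'
  obtain ⟨e, he⟩ := canon_of_arrow hBC C fun x => if x = a then b else x
  have hsurj : Surjective e := (e.injective.bijective_of_nat_card_le hle).2
  obtain ⟨a', rfl⟩ := hsurj a
  obtain ⟨b', rfl⟩ := hsurj b
  obtain ⟨c', rfl⟩ := hsurj c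
  rcases he with he | he
  · have := he b' c'
    simp only [comp, if_neg hab.symm, if_neg hac.symm] at this
    exact hbc this
  · have : a' = b' := he (by simp [comp])
    exact hab (by rw [this])

theorem exists_large (hfin : ∀ M ∈ K, Finite M) (h : ∀ B ∈ K, ∃ C ∈ K, Arrow B C 2) (r : ℕ) :
    ∀ B ∈ K, 3 ≤ Nat.card B →
      ∃ C ∈ K, Nonempty (B ↪[L] C) ∧ r < Nat.card C ∧ 3 ≤ Nat.card C := by
  intro B hB h3
  induction r with
  | zero => exact ⟨B, hB, ⟨.refl L B⟩, by omega, h3⟩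
  | succ r ih =>
    obtain ⟨C, hC, ⟨e⟩, hr, h3'⟩ := ih
    obtain ⟨C', hC', ⟨e'⟩, hlt⟩ := exists_larger hfin h C hC h3'
    exact ⟨C', hC', ⟨e'.comp e⟩, by omega, by omega⟩

theorem exists_mono (hfin : ∀ M ∈ K, Finite M) (h : ∀ B ∈ K, ∃ C ∈ K, Arrow B C 2) (r : ℕ) :
    ∀ B ∈ K, 3 ≤ Nat.card B → ∃ C ∈ K, ∀ χ : C → Fin r,
      ∃ e : B ↪[L] C, ∀ x y, χ (e x) = χ (e y) := by
  intro B hB h3
  obtain ⟨B', hB', ⟨e₀⟩, hr, -⟩ := exists_large hfin h r B hB h3
  obtain ⟨C, hC, hBC⟩ := h B' hB'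
  refine ⟨C, hC, fun χ => ?_⟩
  obtain ⟨e, he⟩ := canon_of_arrow hBC (ULift.{w} (Fin r)) fun x => ULift.up (χ x)
  rcases he with he | he
  · exact ⟨e.comp e₀, fun x y => ULift.up_injective (he (e₀ x) (e₀ y))⟩
  · have := Nat.card_le_card_of_injective _ he
    rw [Nat.card_ulift, Nat.card_eq_fintype_card (α := Fin r), Fintype.card_fin] at this
    omega

theorem exists_enum {U : Type*} {s : Set U} {k : ℕ} (hs : s.encard = k) :
    ∃ f : Fin k → U, Set.range f = s := by
  have hfin := Set.finite_of_encard_eq_coe hs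
  have hc : hfin.toFinset.card = k := by
    rw [hfin.encard_eq_coe_toFinset_card] at hs
    exact_mod_cast hs
  let e := hfin.toFinset.equivFinOfCardEq hc
  refine ⟨fun i => e.symm i, ?_⟩
  ext x
  constructor
  · rintro ⟨i, rfl⟩
    exact hfin.mem_toFinset.1 (e.symm i).2
  · intro hx
    exact ⟨e ⟨x, hfin.mem_toFinset.2 hx⟩, by simp⟩

theorem arrow_self_of_small {B : Bundled.{w} L.Structure} [Finite B] (hB : Nat.card B < 3)
    (k : ℕ) : Arrow B B k := by
  classical
  intro U s _ _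
  refine ⟨.refl L B, ?_⟩
  by_cases h : ∃ a b : B, a ≠ b
  · obtain ⟨a, b, hab⟩ := h
    have := Fintype.ofFinite B
    have hall : ∀ x, x = a ∨ x = b := fun x => by
      by_contra hx
      push Not at hx
      have : 2 < Fintype.card B := Fintype.two_lt_card_iff.2 ⟨x, a, b, hx.1, hx.2, hab⟩
      rw [← Nat.card_eq_fintype_card] at this
      omega
    refine ⟨s a ∩ s b, fun x y hxy => ?_⟩
    rcases hall x with rfl | rfl <;> rcases hall y with rfl | rfl
    · exact absurd rfl hxy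
    · rfl
    · exact Set.inter_comm _ _
    · exact absurd rfl hxy
  · push Not at h
    exact ⟨∅, fun x y hxy => absurd (h x y) hxy⟩

theorem arrow_of_two (hfin : ∀ M ∈ K, Finite M) (h : ∀ B ∈ K, ∃ C ∈ K, Arrow B C 2) (k : ℕ) :
    ∀ B ∈ K, ∃ C ∈ K, Arrow B C k := by
  classical
  intro B hB
  have := hfin B hB
  by_cases h3 : Nat.card B < 3
  · exact ⟨B, hB, arrow_self_of_small h3 k⟩
  obtain ⟨B₀, hB₀, hmono⟩ := exists_mono hfin h (k * k + 1) B hB (not_lt.1 h3)
  obtain ⟨C, hC, hcanon⟩ := exists_canon h k B₀ hB₀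
  have := hfin B₀ hB₀
  refine ⟨C, hC, fun U s hs hk => ?_⟩
  choose f hf using fun x => exists_enum (hk x)
  obtain ⟨e₁, he₁⟩ := hcanon U fun i x => f x i
  let g : Fin k → B₀ → U := fun i x => f (e₁ x) i
  have hg : ∀ i, Canon (g i) := he₁
  let R : B₀ → B₀ → Prop := fun x y =>
    ∃ i j, Injective (g i) ∧ Injective (g j) ∧ g i x = g j y
  obtain ⟨col, hcol⟩ := exists_greedy R
    (fun x y ⟨i, j, hi, hj, hij⟩ => ⟨j, i, hj, hi, hij.symm⟩) (k * k) (fun x => by
      have : Nonempty B₀ := ⟨x⟩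
      refine ⟨Finset.univ.image fun p : Fin k × Fin k => invFun (g p.2) (g p.1 x), ?_, ?_⟩
      · exact Finset.card_image_le.trans (by simp)
      · rintro y ⟨i, j, -, hj, hij⟩
        refine Finset.mem_image.2 ⟨(i, j), Finset.mem_univ _, ?_⟩
        simp only [hij]
        exact leftInverse_invFun hj y)
  obtain ⟨e₀, he₀⟩ := hmono col
  refine ⟨e₁.comp e₀, {z | ∃ i, ∀ x, g i x = z}, fun x y hxy => ?_⟩
  have hne : e₀ x ≠ e₀ y := fun h => hxy (e₀.injective h)
  have hR : ¬ R (e₀ x) (e₀ y) := fun hR => hcol _ _ hne hR (he₀ x y)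
  change s (e₁ (e₀ x)) ∩ s (e₁ (e₀ y)) = _
  rw [← hf, ← hf]
  ext z
  constructor
  · rintro ⟨⟨i, hi⟩, ⟨j, hj⟩⟩
    rcases hg i with h1 | h1
    · exact ⟨i, fun x' => (h1 x' (e₀ x)).trans hi⟩
    rcases hg j with h2 | h2
    · exact ⟨j, fun x' => (h2 x' (e₀ y)).trans hj⟩
    exact absurd ⟨i, j, h1, h2, hi.trans hj.symm⟩ hR
  · rintro ⟨i, hi⟩
    exact ⟨⟨i, hi _⟩, ⟨i, hi _⟩⟩

theorem finiteSunflower_of_two (hfin : ∀ M ∈ K, Finite M) (h : FiniteSunflower K 2) (k : ℕ) :
    FiniteSunflower K k :=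
  (finiteSunflower_iff K k).2 (arrow_of_two hfin ((finiteSunflower_iff K 2).1 h) k)

end Pool.Agent.P.MP_ae912c_co
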